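import Mathlib

namespace Pool.Agent.Results.MP_dbd06c_co.Unimodal

/-- The polynomials of the problem. -/
noncomputable def F : ℕ → Polynomial ℤ
  | 0 => 1
  | 1 => 1
  | (s + 2) => (1 + Polynomial.X + 2 * Polynomial.X ^ 2) * F (s + 1) + Polynomial.X ^ 3 * F s

/-- The coefficient sequence `a_0, ..., a_d` (`d` the degree) increases weakly up to an index
`m ≤ d` and decreases weakly from `m` on. -/
def IsUnimodal (p : Polynomial ℤ) : Prop :=
  ∃ m ≤ p.natDegree, (∀ i, i < m → p.coeff i ≤ p.coeff (i + 1)) ∧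
    (∀ i, m ≤ i → i < p.natDegree → p.coeff (i + 1) ≤ p.coeff i)

section core
open PowerSeries

noncomputable def U (s : ℕ) : PowerSeries ℚ := (1 + X) ^ (s + 1) * (1 - X) ^ (2 * s)
noncomputable def W (s : ℕ) : PowerSeries ℚ := (U s)⁻¹

lemma UW (s : ℕ) : U s * W s = 1 := by
  apply PowerSeries.mul_inv_cancel
  simp [U]

lemma U_succ (s : ℕ) : U (s + 1) = (1 + X) * (1 - X) ^ 2 * U s := by
  simp only [U]; ring

lemma W_succ (s : ℕ) : W s = (1 + X) * (1 - X) ^ 2 * W (s + 1) := by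
  have h1 := UW s
  have h2 := UW (s + 1)
  rw [U_succ] at h2
  calc W s = W s * ((1 + X) * (1 - X) ^ 2 * U s * W (s + 1)) := by rw [h2, mul_one]
    _ = (U s * W s) * ((1 + X) * (1 - X) ^ 2 * W (s + 1)) := by ring
    _ = _ := by rw [h1, one_mul]

noncomputable def ct (s m : ℕ) : ℚ := coeff m ((1 - X ^ 2) ^ m * W s)

lemma two_coeff (n : ℕ) (f : PowerSeries ℚ) : (2 : ℚ) * coeff n f = coeff n (2 * f) := by
  rw [two_mul, two_mul, map_add]

lemma coeff_congr (n : ℕ) (P Q R : PowerSeries ℚ) (h : P = Q + X ^ (n + 1) * R) :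
    coeff n P = coeff n Q := by
  rw [h, map_add, PowerSeries.coeff_X_pow_mul', if_neg (by omega), add_zero]

lemma ct_rec (s m : ℕ) : ct (s + 2) (m + 3) =
    ct (s + 1) (m + 3) + ct (s + 1) (m + 2) + 2 * ct (s + 1) (m + 1) + ct s m := by
  have e1 : ct (s + 1) (m + 2) = coeff (m + 3) (X * ((1 - X ^ 2) ^ (m + 2) * W (s + 1))) := by
    rw [ct, PowerSeries.coeff_succ_X_mul]
  have e2 : ct (s + 1) (m + 1) = coeff (m + 3) (X ^ 2 * ((1 - X ^ 2) ^ (m + 1) * W (s + 1))) := by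
    rw [ct, show m + 3 = (m + 1) + 2 from rfl, PowerSeries.coeff_X_pow_mul]
  have e3 : ct s m = coeff (m + 3) (X ^ 3 * ((1 - X ^ 2) ^ m * W s)) := by
    rw [ct, PowerSeries.coeff_X_pow_mul]
  rw [e1, e2, e3, two_coeff]
  simp only [ct]
  rw [← map_add, ← map_add, ← map_add]
  congr 1
  rw [W_succ s, W_succ (s + 1)]
  ring

lemma ct_rec2 (s : ℕ) : ct (s + 2) 2 =
    ct (s + 1) 2 + ct (s + 1) 1 + 2 * ct (s + 1) 0 := by
  have e1 : ct (s + 1) 1 = coeff 2 (X * ((1 - X ^ 2) ^ 1 * W (s + 1))) := by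
    rw [ct, PowerSeries.coeff_succ_X_mul]
  have e2 : ct (s + 1) 0 = coeff 2 (X ^ 2 * ((1 - X ^ 2) ^ 0 * W (s + 1))) := by
    rw [ct, show 2 = 0 + 2 from rfl, PowerSeries.coeff_X_pow_mul]
  rw [e1, e2, two_coeff]
  simp only [ct]
  rw [← map_add, ← map_add]
  apply coeff_congr 2 _ _ ((1 + X) * (1 - X) ^ 3 * W (s + 2))
  rw [W_succ (s + 1)]
  ring

lemma ct_rec1 (s : ℕ) : ct (s + 2) 1 = ct (s + 1) 1 + ct (s + 1) 0 := by
  have e2 : ct (s + 1) 0 = coeff 1 (X ^ 1 * ((1 - X ^ 2) ^ 0 * W (s + 1))) := by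
    rw [ct, show 1 = 0 + 1 from rfl, PowerSeries.coeff_X_pow_mul]
  rw [e2]
  simp only [ct]
  rw [← map_add]
  apply coeff_congr 1 _ _ ((2 - X - 2 * X ^ 2 + X ^ 3) * W (s + 2))
  rw [W_succ (s + 1)]
  ring

lemma ct_rec0 (s : ℕ) : ct (s + 2) 0 = ct (s + 1) 0 := by
  simp only [ct]
  apply coeff_congr 0 _ _ ((1 + X - X ^ 2) * W (s + 2))
  rw [W_succ (s + 1)]
  ring

/-- vanishing beyond the degree -/
lemma ct_zero (t j : ℕ) (hj : j ≤ t + 1) : ct (t + 1) (2 * (t + 1) + j) = 0 := by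
  have h : (1 - X ^ 2 : PowerSeries ℚ) ^ (2 * (t + 1) + j) * W (t + 1)
      = (1 + X) ^ (t + j) * (1 - X) ^ j := by
    have h1 := UW (t + 1)
    have h2 : (1 - X ^ 2 : PowerSeries ℚ) ^ (2 * (t + 1) + j)
        = U (t + 1) * ((1 + X) ^ (t + j) * (1 - X) ^ j) := by
      have : (1 - X ^ 2 : PowerSeries ℚ) = (1 + X) * (1 - X) := by ring
      rw [this, U, mul_pow]
      ring
    rw [h2]
    calc _ = (U (t + 1) * W (t + 1)) * ((1 + X) ^ (t + j) * (1 - X) ^ j) := by ring
      _ = _ := by rw [h1, one_mul]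
  have h3 : ((1 + X) ^ (t + j) * (1 - X) ^ j : PowerSeries ℚ)
      = (((1 + Polynomial.X) ^ (t + j) * (1 - Polynomial.X) ^ j : Polynomial ℚ) : PowerSeries ℚ) := by
    simp
  rw [ct, h, h3, Polynomial.coeff_coe]
  apply Polynomial.coeff_eq_zero_of_natDegree_lt
  have d1 : ((1 + Polynomial.X) ^ (t + j) : Polynomial ℚ).natDegree ≤ t + j := by
    refine (Polynomial.natDegree_pow_le).trans ?_
    have : (1 + Polynomial.X : Polynomial ℚ).natDegree ≤ 1 := by
      refine (Polynomial.natDegree_add_le _ _).trans ?_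
      simp
    nlinarith
  have d2 : ((1 - Polynomial.X) ^ j : Polynomial ℚ).natDegree ≤ j := by
    refine (Polynomial.natDegree_pow_le).trans ?_
    have : (1 - Polynomial.X : Polynomial ℚ).natDegree ≤ 1 := by
      refine (Polynomial.natDegree_sub_le _ _).trans ?_
      simp
    nlinarith
  have := Polynomial.natDegree_mul_le (p := ((1 + Polynomial.X) ^ (t + j) : Polynomial ℚ)) (q := (1 - Polynomial.X) ^ j)
  omega

/-- the differential equation -/
lemma pow_ode (p q : PowerSeries ℚ) (c : ℚ) (n : ℕ) (h : derivative ℚ p = C c * q) :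
    p * derivative ℚ (p ^ n) = C ((n : ℚ) * c) * q * p ^ n := by
  rw [PowerSeries.derivative_pow, h]
  cases n with
  | zero => simp
  | succ n =>
    simp only [Nat.add_sub_cancel, pow_succ, map_mul, map_natCast]
    ring

lemma ode (s k : ℕ) : (1 - X ^ 2) * derivative ℚ ((1 - X ^ 2) ^ k * W s)
    = (C ((s : ℚ) - 1) + C (3 * (s : ℚ) + 1 - 2 * k) * X) * ((1 - X ^ 2) ^ k * W s) := by
  have a1 : derivative ℚ (1 + X : PowerSeries ℚ) = C 1 * 1 := by
    simp
  have a2 : derivative ℚ (1 - X : PowerSeries ℚ) = C (-1) * 1 := by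
    simp
  have a3 : derivative ℚ (1 - X ^ 2 : PowerSeries ℚ) = C (-2) * X := by
    rw [map_sub, PowerSeries.derivative_pow, PowerSeries.derivative_one, PowerSeries.derivative_X]
    simp [← map_ofNat (C (R := ℚ)) 2]
  have b1 := pow_ode _ _ _ (s + 1) a1
  have b2 := pow_ode _ _ _ (2 * s) a2
  have b3 := pow_ode _ _ _ k a3
  set g := (1 - X ^ 2) ^ k * W s with hg
  have h1 : U s * g = (1 - X ^ 2) ^ k := by
    rw [hg]; calc _ = (U s * W s) * (1 - X ^ 2) ^ k := by ring
      _ = _ := by rw [UW, one_mul]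
  have hU : (1 - X ^ 2) * derivative ℚ (U s) = (C ((s : ℚ) + 1) * (1 - X) - C (2 * (s : ℚ)) * (1 + X)) * U s := by
    rw [U, Derivation.leibniz, smul_eq_mul, smul_eq_mul]
    have : (1 - X ^ 2 : PowerSeries ℚ) = (1 + X) * (1 - X) := by ring
    rw [this]
    calc _ = (1 + X) * (1 + X) ^ (s + 1) * ((1 - X) * derivative ℚ ((1 - X) ^ (2 * s)))
        + (1 - X) * (1 - X) ^ (2 * s) * ((1 + X) * derivative ℚ ((1 + X) ^ (s + 1))) := by ring
      _ = _ := by
        rw [b1, b2]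
        simp only [map_add, map_mul, map_one, map_ofNat, map_natCast, map_neg, Nat.cast_add, Nat.cast_mul, Nat.cast_ofNat, Nat.cast_one]
        ring
  have hp : (1 - X ^ 2) * derivative ℚ ((1 - X ^ 2 : PowerSeries ℚ) ^ k) = - C (2 * (k : ℚ)) * X * (1 - X ^ 2) ^ k := by
    rw [b3]
    simp only [map_mul, map_neg, map_ofNat, map_natCast]
    ring
  have h2 := congrArg (fun f => (1 - X ^ 2) * derivative ℚ f) h1
  simp only [Derivation.leibniz, smul_eq_mul] at h2
  have h3 : U s * ((1 - X ^ 2) * derivative ℚ g)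
      = U s * ((C ((s : ℚ) - 1) + C (3 * (s : ℚ) + 1 - 2 * k) * X) * g) := by
    have : U s * ((1 - X ^ 2) * derivative ℚ g) = (1 - X ^ 2) * derivative ℚ ((1 - X ^ 2 : PowerSeries ℚ) ^ k)
        - g * ((1 - X ^ 2) * derivative ℚ (U s)) := by
      rw [← h2]; ring
    rw [this, hp, hU, ← h1]
    simp only [map_sub, map_add, map_mul, map_one, map_ofNat, map_natCast]
    ring
  have h4 := congrArg (fun f => W s * f) h3
  simp only [← mul_assoc] at h4
  rw [mul_comm (W s) (U s), UW, one_mul, one_mul] at h4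
  rw [h4]; try ring

noncomputable def H (s k n : ℕ) : ℚ := coeff n (X ^ 2 * ((1 - X ^ 2) ^ k * W s))

lemma H_add_two (s k n : ℕ) : H s k (n + 2) = coeff n ((1 - X ^ 2) ^ k * W s) := by
  rw [H, PowerSeries.coeff_X_pow_mul]

lemma H_zero (s k : ℕ) : H s k 0 = 0 := by
  rw [H, PowerSeries.coeff_X_pow_mul', if_neg (by norm_num)]

lemma H_one (s k : ℕ) : H s k 1 = 0 := by
  rw [H, PowerSeries.coeff_X_pow_mul', if_neg (by norm_num)]

/-- the three term recurrence -/
lemma H_rec (s k n : ℕ) : (n : ℚ) * H s k (n + 2) = ((s : ℚ) - 1) * H s k (n + 1)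
    + ((n : ℚ) - 1 + 3 * s - 2 * k) * H s k n := by
  have h := ode s k
  obtain ⟨c1, hc1⟩ : ∃ c1 : ℚ, c1 = (s : ℚ) - 1 := ⟨_, rfl⟩
  obtain ⟨c2, hc2⟩ : ∃ c2 : ℚ, c2 = 3 * (s : ℚ) + 1 - 2 * k := ⟨_, rfl⟩
  rw [← hc1, ← hc2] at h
  set g := (1 - X ^ 2) ^ k * W s with hg
  -- multiply by X ^ 3
  have h2 : X ^ 2 * (X * derivative ℚ g) - X ^ 2 * (X ^ 2 * (X * derivative ℚ g))
      = C c1 * (X * (X ^ 2 * g)) + C c2 * (X ^ 2 * (X ^ 2 * g)) := by
    linear_combination (X ^ 3 : PowerSeries ℚ) * h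
  have h3 : ∀ n, coeff n (X * derivative ℚ g) = (n : ℚ) * coeff n g := by
    intro n
    cases n with
    | zero => simp
    | succ n => rw [PowerSeries.coeff_succ_X_mul, PowerSeries.coeff_derivative]; push_cast; ring
  have h4 := congrArg (fun f => coeff (n + 2) f) h2
  simp only [map_sub, map_add, PowerSeries.coeff_C_mul, PowerSeries.coeff_X_pow_mul] at h4
  rw [show coeff (n + 2) (X * (X ^ 2 * g)) = coeff (n + 1) (X ^ 2 * g) from PowerSeries.coeff_succ_X_mul _ _, h3] at h4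
  have h5 : coeff n (X ^ 2 * (X * derivative ℚ g)) = ((n : ℚ) - 2) * H s k n := by
    rcases n with _ | _ | n
    · rw [H_zero, PowerSeries.coeff_X_pow_mul', if_neg (by norm_num)]; simp
    · rw [show (0 + 1 : ℕ) = 1 from rfl, H_one, PowerSeries.coeff_X_pow_mul', if_neg (by norm_num)]; simp
    · rw [show n + 1 + 1 = n + 2 from rfl, PowerSeries.coeff_X_pow_mul, h3, H_add_two]; push_cast; ring
  rw [h5] at h4
  rw [H_add_two s k n, ← hg]
  rw [show coeff (n + 1) (X ^ 2 * g) = H s k (n + 1) from rfl, show coeff n (X ^ 2 * g) = H s k n from rfl] at h4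
  rw [← hc1]
  linear_combination h4 + (H s k n) * hc2

lemma ct_k (s k : ℕ) : ct s k = H s k (k + 2) := by rw [H_add_two, ct]

lemma ct_k1 (s k : ℕ) : ct s (k + 1) = H s k (k + 3) - H s k (k + 1) := by
  rw [ct]
  have : (1 - X ^ 2) ^ (k + 1) * W s = (1 - X ^ 2) ^ k * W s - X ^ 2 * ((1 - X ^ 2) ^ k * W s) := by ring
  rw [this, map_sub, show k + 3 = (k + 1) + 2 from rfl, H_add_two]
  rfl

lemma ct_k2 (s k : ℕ) : ct s (k + 2) = H s k (k + 4) - 2 * H s k (k + 2) + H s k k := by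
  rw [ct]
  have : (1 - X ^ 2) ^ (k + 2) * W s = (1 - X ^ 2) ^ k * W s - 2 * (X ^ 2 * ((1 - X ^ 2) ^ k * W s))
      + X ^ 2 * (X ^ 2 * ((1 - X ^ 2) ^ k * W s)) := by ring
  rw [this, map_add, map_sub, ← two_coeff, show k + 4 = (k + 2) + 2 from rfl, H_add_two s k (k + 2)]
  rw [show coeff (k + 2) (X ^ 2 * (X ^ 2 * ((1 - X ^ 2) ^ k * W s)))
    = coeff k (X ^ 2 * ((1 - X ^ 2) ^ k * W s)) from PowerSeries.coeff_X_pow_mul _ _ _]
  rfl

lemma ct_rec3 (s k : ℕ) : ((k : ℚ) + 2) * (3 * s - k - 1) * (3 * s - 2 * k - 1) * ct s (k + 2)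
    = (s - 1) * (3 * s + 1) * (3 * s - 2 * k - 2) * ct s (k + 1)
      + 4 * (2 * s - k - 1) * (s - k) * (3 * s - 2 * k - 3) * ct s k := by
  have e1 := H_rec s k (k + 2)
  have e2 := H_rec s k (k + 1)
  have e3 := H_rec s k k
  rw [ct_k2, ct_k1, ct_k s k]
  push_cast at e1 e2 e3
  rw [show k + 2 + 2 = k + 4 from rfl, show k + 2 + 1 = k + 3 from rfl] at e1
  rw [show k + 1 + 2 = k + 3 from rfl, show k + 1 + 1 = k + 2 from rfl] at e2
  linear_combination ((3 * (s : ℚ) - k - 1) * (3 * s - 2 * k - 1)) * e1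
    + (-(((s : ℚ) - 1)) * (3 * s - 2 * k - 3)) * e2 - (((k : ℚ) + 2) * (3 * s - 2 * k - 1)) * e3

/-! Part 2: inequalities -/

def Q (s v : ℤ) : ℤ := 5 * v ^ 3 + 3 * v ^ 2 - 14 * v - (v + 5) * s ^ 2 - (6 * v + 14) * s

lemma Q_sign (s w : ℤ) (hs : 0 ≤ s) (hw : 1 ≤ w) (h : Q s (w + 2) ≤ 0) : Q s w ≤ 0 := by
  by_contra hc
  push Not at hc
  unfold Q at h hc
  have h1 : (w + 5) * s ^ 2 < (w + 5) * (5 * w ^ 2) := by
    nlinarith [mul_nonneg (by linarith : (0:ℤ) ≤ w) hs]
  have h2 : s ^ 2 < 5 * w ^ 2 := lt_of_mul_lt_mul_left h1 (by linarith)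
  have h3 : s < 3 * w := by
    by_contra h4
    push Not at h4
    nlinarith
  nlinarith

section
variable (s : ℕ) (a : ℕ → ℤ)

def Rec : Prop := ∀ k : ℕ, k + 2 ≤ 3 * s →
  ((k : ℤ) + 2) * (3 * s - k - 1) * (3 * s - 2 * k - 1) * a (k + 2)
    = (s - 1) * (3 * s + 1) * (3 * s - 2 * k - 2) * a (k + 1)
      + 4 * (2 * s - k - 1) * (s - k) * (3 * s - 2 * k - 3) * a k

lemma inc1 (hs : 8 ≤ s) (h : Rec s a) (h0 : ∀ i, 0 ≤ a i) (k : ℕ) (hk : k ≤ s) :
    a (k + 1) ≤ a (k + 2) := by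
  have hr := h k (by omega)
  obtain ⟨e, he⟩ := Nat.exists_eq_add_of_le hs
  obtain ⟨d, hd⟩ := Nat.exists_eq_add_of_le hk
  have hS : (s : ℤ) = 8 + e := by exact_mod_cast he
  have hK : (k : ℤ) = 8 + e - d := by
    have : (s : ℤ) = k + d := by exact_mod_cast hd
    linarith
  have hk0 : (0 : ℤ) ≤ k := by positivity
  have hd0 : (0 : ℤ) ≤ d := by positivity
  have he0 : (0 : ℤ) ≤ e := by positivity
  have hA : 0 < ((k : ℤ) + 2) * (3 * s - k - 1) * (3 * s - 2 * k - 1) := by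
    have h1 : (0 : ℤ) < k + 2 := by linarith
    have h2 : (0 : ℤ) < 3 * s - k - 1 := by rw [hS, hK]; linarith
    have h3 : (0 : ℤ) < 3 * s - 2 * k - 1 := by rw [hS, hK]; linarith
    positivity
  have hBA : 0 ≤ ((s : ℤ) - 1) * (3 * s + 1) * (3 * s - 2 * k - 2) - ((k : ℤ) + 2) * (3 * s - k - 1) * (3 * s - 2 * k - 1) := by
    rw [hK, hS]
    ring_nf
    positivity
  have hD : 0 ≤ 4 * (2 * (s : ℤ) - k - 1) * (s - k) * (3 * s - 2 * k - 3) := by
    have h1 : (0 : ℤ) ≤ 2 * s - k - 1 := by rw [hS, hK]; linarith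
    have h2 : (0 : ℤ) ≤ s - k := by rw [hS, hK]; linarith
    have h3 : (0 : ℤ) ≤ 3 * s - 2 * k - 3 := by rw [hS, hK]; linarith
    positivity
  have h4 : ((k : ℤ) + 2) * (3 * s - k - 1) * (3 * s - 2 * k - 1) * a (k + 1)
      ≤ ((k : ℤ) + 2) * (3 * s - k - 1) * (3 * s - 2 * k - 1) * a (k + 2) := by
    rw [hr]
    have h5 := mul_nonneg hBA (h0 (k + 1))
    have h6 := mul_nonneg hD (h0 k)
    nlinarith
  exact le_of_mul_le_mul_left h4 hA

lemma fw (h : Rec s a) (h0 : ∀ i, 0 ≤ a i) (k : ℕ) (hk : s ≤ k)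
    (hv : 2 * k + 3 ≤ 3 * s) :
    (0 ≤ Q s (3 * s - 2 * k - 2) → a k ≤ a (k + 1) → a (k + 1) ≤ a (k + 2)) ∧
    (Q s (3 * s - 2 * k - 2) ≤ 0 → a (k + 1) ≤ a k → a (k + 2) ≤ a (k + 1)) := by
  have hr := h k (by omega)
  have hk0 : (0 : ℤ) ≤ k := by positivity
  have hk' : (s : ℤ) ≤ k := by exact_mod_cast hk
  have hv' : 2 * (k : ℤ) + 3 ≤ 3 * s := by exact_mod_cast hv
  have hA : 0 < ((k : ℤ) + 2) * (3 * s - k - 1) * (3 * s - 2 * k - 1) := by
    have h1 : (0 : ℤ) < k + 2 := by linarith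
    have h2 : (0 : ℤ) < 3 * s - k - 1 := by linarith
    have h3 : (0 : ℤ) < 3 * s - 2 * k - 1 := by linarith
    positivity
  have hD : 4 * (2 * (s : ℤ) - k - 1) * (s - k) * (3 * s - 2 * k - 3) ≤ 0 := by
    have h1 : (0 : ℤ) ≤ 2 * s - k - 1 := by linarith
    have h2 : (0 : ℤ) ≤ k - s := by linarith
    have h3 : (0 : ℤ) ≤ 3 * s - 2 * k - 3 := by linarith
    have : 0 ≤ 4 * (2 * (s : ℤ) - k - 1) * (k - s) * (3 * s - 2 * k - 3) := by positivity
    linarith
  have hQ : Q s (3 * s - 2 * k - 2) = 4 * (((s : ℤ) - 1) * (3 * s + 1) * (3 * s - 2 * k - 2)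
      + 4 * (2 * s - k - 1) * (s - k) * (3 * s - 2 * k - 3)
      - ((k : ℤ) + 2) * (3 * s - k - 1) * (3 * s - 2 * k - 1)) := by
    unfold Q; ring
  set A := ((k : ℤ) + 2) * (3 * s - k - 1) * (3 * s - 2 * k - 1) with hAd
  set B := ((s : ℤ) - 1) * (3 * s + 1) * (3 * s - 2 * k - 2) with hBd
  set D := 4 * (2 * (s : ℤ) - k - 1) * (s - k) * (3 * s - 2 * k - 3) with hDd
  rw [hQ]
  constructor
  · intro hq hi
    have h1 : 0 ≤ B + D - A := by linarith
    have h2 := mul_nonneg h1 (h0 (k + 1))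
    have h3 : 0 ≤ (-D) * (a (k + 1) - a k) := mul_nonneg (by linarith) (by linarith)
    have h4 : A * a (k + 1) ≤ A * a (k + 2) := by rw [hr]; nlinarith
    exact le_of_mul_le_mul_left h4 hA
  · intro hq hi
    have h1 : 0 ≤ A - (B + D) := by linarith
    have h2 := mul_nonneg h1 (h0 (k + 1))
    have h3 : 0 ≤ (-D) * (a k - a (k + 1)) := mul_nonneg (by linarith) (by linarith)
    have h4 : A * a (k + 2) ≤ A * a (k + 1) := by rw [hr]; nlinarith
    exact le_of_mul_le_mul_left h4 hA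

lemma bw (hs : 2 ≤ s) (h : Rec s a) (h0 : ∀ i, 0 ≤ a i) (hz : ∀ i, 2 * s ≤ i → a i = 0) :
    ∀ n k : ℕ, 2 * s ≤ k + n → 3 * s + 1 ≤ 2 * (k + 1) → 3 * a (k + 1) ≤ 2 * a k := by
  intro n
  induction n with
  | zero =>
    intro k hk _
    rw [hz (k + 1) (by omega)]
    have := h0 k
    linarith
  | succ n ih =>
    intro k hk hk2
    rcases Nat.lt_or_ge (k + 1) (2 * s) with hlt | hge
    swap
    · rw [hz (k + 1) hge]
      have := h0 k
      linarith
    have ih' := ih (k + 1) (by omega) (by omega)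
    rw [show k + 1 + 1 = k + 2 from rfl] at ih'
    have hr := h k (by omega)
    have hs' : (2 : ℤ) ≤ s := by exact_mod_cast hs
    have hk0 : (0 : ℤ) ≤ k := by positivity
    have hk' : (k : ℤ) + 1 < 2 * s := by exact_mod_cast hlt
    have hk2' : 3 * (s : ℤ) + 1 ≤ 2 * (k + 1) := by exact_mod_cast hk2
    have hD : 0 < 4 * (2 * (s : ℤ) - k - 1) * (k - s) * (2 * k + 3 - 3 * s) := by
      have h1 : (0 : ℤ) < 2 * s - k - 1 := by linarith
      have h2 : (0 : ℤ) < k - s := by linarith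
      have h3 : (0 : ℤ) < 2 * k + 3 - 3 * s := by linarith
      positivity
    have hA : 0 ≤ ((k : ℤ) + 2) * (3 * s - k - 1) * (2 * k + 1 - 3 * s) := by
      have h1 : (0 : ℤ) ≤ k + 2 := by linarith
      have h2 : (0 : ℤ) ≤ 3 * s - k - 1 := by linarith
      have h3 : (0 : ℤ) ≤ 2 * k + 1 - 3 * s := by linarith
      positivity
    have hid : 6 * (((s : ℤ) - 1) * (3 * s + 1) * (2 * k + 2 - 3 * s)) - 4 * (((k : ℤ) + 2) * (3 * s - k - 1) * (2 * k + 1 - 3 * s))
        - 9 * (4 * (2 * (s : ℤ) - k - 1) * (k - s) * (2 * k + 3 - 3 * s)) =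
        24 * s + 10 * (2 * (k : ℤ) + 2 - 3 * s) ^ 3 - 8 * (2 * (k : ℤ) + 2 - 3 * s) ^ 2 - 26 * (2 * (k : ℤ) + 2 - 3 * s) := by
      ring
    have hpos : 0 ≤ 24 * (s : ℤ) + 10 * (2 * (k : ℤ) + 2 - 3 * s) ^ 3 - 8 * (2 * (k : ℤ) + 2 - 3 * s) ^ 2 - 26 * (2 * (k : ℤ) + 2 - 3 * s) := by
      obtain ⟨u, hu⟩ : ∃ u : ℤ, 2 * (k : ℤ) + 2 - 3 * s = u + 1 := ⟨2 * (k : ℤ) + 1 - 3 * s, by ring⟩
      have hu0 : 0 ≤ u := by linarith
      rw [hu]
      have : 0 ≤ u ^ 3 := by positivity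
      nlinarith [sq_nonneg (u - 1), sq_nonneg u]
    set A := ((k : ℤ) + 2) * (3 * s - k - 1) * (2 * k + 1 - 3 * s) with hAd
    set B := ((s : ℤ) - 1) * (3 * s + 1) * (2 * k + 2 - 3 * s) with hBd
    set D := 4 * (2 * (s : ℤ) - k - 1) * (k - s) * (2 * k + 3 - 3 * s) with hDd
    have hr2 : D * a k = B * a (k + 1) - A * a (k + 2) := by
      rw [hAd, hBd, hDd]
      linear_combination (-1) * hr
    have h1 : 0 ≤ (6 * B - 4 * A - 9 * D) * a (k + 1) := mul_nonneg (by linarith) (h0 _)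
    have h2 : 0 ≤ 2 * A * (2 * a (k + 1) - 3 * a (k + 2)) := mul_nonneg (by linarith) (by linarith)
    have h3 : D * (3 * a (k + 1)) ≤ D * (2 * a k) := by nlinarith
    exact le_of_mul_le_mul_left h3 hD

lemma unimodal_of_rec (hs : 8 ≤ s) (h : Rec s a) (h0 : ∀ i, 0 ≤ a i)
    (hz : ∀ i, 2 * s ≤ i → a i = 0) (ha0 : a 0 = 1) (ha1 : a 0 ≤ a 1) :
    ∃ p, (∀ i, i < p → a i ≤ a (i + 1)) ∧ (∀ i, p ≤ i → a (i + 1) ≤ a i) := by
  have hex : ∃ k, a (k + 1) < a k := by
    by_contra hc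
    push Not at hc
    have : ∀ n, 1 ≤ a n := by
      intro n
      induction n with
      | zero => rw [ha0]
      | succ n ih => exact ih.trans (hc n)
    have := this (2 * s)
    rw [hz _ le_rfl] at this
    norm_num at this
  classical
  obtain ⟨p, hp, hmin⟩ : ∃ p, a (p + 1) < a p ∧ ∀ i, i < p → a i ≤ a (i + 1) := by
    refine ⟨Nat.find hex, Nat.find_spec hex, fun i hi => ?_⟩
    have := Nat.find_min hex hi
    linarith
  refine ⟨p, hmin, ?_⟩
  -- p is large
  have hps : s + 2 ≤ p := by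
    by_contra hc
    have hc' : p ≤ s + 1 := by omega
    rcases p with _ | p
    · linarith
    · have := inc1 s a hs h h0 p (by omega)
      rw [show p + 1 + 1 = p + 2 from rfl] at hp
      linarith
  -- forward region
  have hfw : ∀ n, 2 * (p + n) + 1 ≤ 3 * s → (a (p + n + 1) ≤ a (p + n) ∧ Q s (3 * s - 2 * (p + n : ℕ)) ≤ 0) := by
    intro n
    induction n with
    | zero =>
      intro hn
      obtain ⟨k, hk⟩ : ∃ k, p = k + 1 := ⟨p - 1, by omega⟩
      have hf := fw s a h h0 k (by omega) (by omega)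
      have e1 : (3 * (s : ℤ) - 2 * ((p + 0 : ℕ) : ℤ)) = 3 * s - 2 * k - 2 := by
        rw [hk]; push_cast; ring
      refine ⟨by simpa using hp.le, ?_⟩
      rw [e1]
      by_contra hc
      push Not at hc
      have := hf.1 hc.le (hmin k (by omega))
      rw [hk, show k + 1 + 1 = k + 2 from rfl] at hp
      linarith
    | succ n ih =>
      intro hn
      obtain ⟨i1, i2⟩ := ih (by omega)
      have hq : Q s (3 * s - 2 * ((p + n : ℕ) : ℤ) - 2) ≤ 0 := by
        apply Q_sign s _ (by positivity)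
        · have : 2 * ((p + (n + 1) : ℕ) : ℤ) + 1 ≤ 3 * s := by exact_mod_cast hn
          push_cast at this ⊢
          linarith
        · rw [show 3 * (s : ℤ) - 2 * ((p + n : ℕ) : ℤ) - 2 + 2 = 3 * s - 2 * ((p + n : ℕ) : ℤ) by ring]
          exact i2
      have hf := fw s a h h0 (p + n) (by omega) (by omega)
      refine ⟨hf.2 hq i1, ?_⟩
      have e1 : (3 * (s : ℤ) - 2 * ((p + (n + 1) : ℕ) : ℤ)) = 3 * s - 2 * ((p + n : ℕ) : ℤ) - 2 := by
        push_cast; ring
      rw [e1]; exact hq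
  intro i hi
  rcases Nat.lt_or_ge (2 * i) (3 * s) with hlt | hge
  · obtain ⟨n, rfl⟩ := Nat.exists_eq_add_of_le hi
    exact (hfw n (by omega)).1
  · have := bw s a (by omega) h h0 hz (2 * s) i (by omega) (by omega)
    have := h0 i
    have := h0 (i + 1)
    linarith
end

end core

/-! Part 3: coefficients of the polynomials -/

def fc : ℕ → ℕ → ℤ
  | 0, m => if m = 0 then 1 else 0
  | 1, m => if m = 0 then 1 else 0
  | (s + 2), m => fc (s + 1) m + (if 1 ≤ m then fc (s + 1) (m - 1) else 0)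
      + 2 * (if 2 ≤ m then fc (s + 1) (m - 2) else 0) + (if 3 ≤ m then fc s (m - 3) else 0)

lemma coeff_F (s : ℕ) : ∀ m, (F s).coeff m = fc s m := by
  induction s using Nat.strong_induction_on with
  | _ s ih =>
    intro m
    rcases s with _ | _ | s
    · simp [F, fc, Polynomial.coeff_one]
    · simp [F, fc, Polynomial.coeff_one]
    · have e : F (s + 1 + 1) = F (s + 1) + Polynomial.X ^ 1 * F (s + 1)
          + (Polynomial.X ^ 2 * F (s + 1) + Polynomial.X ^ 2 * F (s + 1)) + Polynomial.X ^ 3 * F s := by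
        rw [F]; ring
      rw [e]
      simp only [Polynomial.coeff_add, Polynomial.coeff_X_pow_mul']
      rw [ih (s + 1) (by omega), ih (s + 1) (by omega), ih (s + 1) (by omega), ih s (by omega)]
      show _ = fc (s + 2) m
      rw [fc]
      ring

lemma fc_nonneg (s : ℕ) : ∀ m, 0 ≤ fc s m := by
  induction s using Nat.strong_induction_on with
  | _ s ih =>
    intro m
    rcases s with _ | _ | s
    · simp only [fc]; split_ifs <;> norm_num
    · simp only [fc]; split_ifs <;> norm_num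
    · show 0 ≤ fc (s + 2) m
      rw [fc]
      have h1 := ih (s + 1) (by omega) m
      have h2 := ih (s + 1) (by omega) (m - 1)
      have h3 := ih (s + 1) (by omega) (m - 2)
      have h4 := ih s (by omega) (m - 3)
      split_ifs <;> linarith

lemma fc_zero (s : ℕ) : ∀ m, 2 * s ≤ m → 1 ≤ m → fc s m = 0 := by
  induction s using Nat.strong_induction_on with
  | _ s ih =>
    intro m hm hm1
    rcases s with _ | _ | s
    · simp only [fc]; rw [if_neg (by omega)]
    · simp only [fc]; rw [if_neg (by omega)]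
    · show fc (s + 2) m = 0
      rw [fc, ih (s + 1) (by omega) m (by omega) (by omega), ih (s + 1) (by omega) (m - 1) (by omega) (by omega),
        ih (s + 1) (by omega) (m - 2) (by omega) (by omega), ih s (by omega) (m - 3) (by omega) (by omega)]
      simp

lemma fc_at0 (s : ℕ) : fc s 0 = 1 := by
  induction s using Nat.strong_induction_on with
  | _ s ih =>
    rcases s with _ | _ | s
    · simp [fc]
    · simp [fc]
    · show fc (s + 2) 0 = 1
      rw [fc, ih (s + 1) (by omega)]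
      simp

lemma fc_at1 (s : ℕ) : fc (s + 1) 1 = s := by
  induction s with
  | zero => simp [fc]
  | succ s ih =>
    show fc (s + 2) 1 = _
    rw [fc, ih]
    simp [fc_at0]

lemma fc_match (s : ℕ) : ∀ m, m ≤ 3 * s → (fc s m : ℚ) = ct s m := by
  induction s using Nat.strong_induction_on with
  | _ s ih =>
    intro m hm
    rcases s with _ | _ | s
    · have : m = 0 := by omega
      subst this
      have h := UW 0
      have h2 := congrArg (PowerSeries.coeff 0) h
      simp only [ct, pow_zero, one_mul]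
      rw [PowerSeries.coeff_zero_eq_constantCoeff_apply, map_mul] at h2
      simp [U] at h2
      simp [fc, h2]
    · rcases Nat.lt_or_ge m 2 with hlt | hge
      · have h := UW 1
        have hU : U 1 = 1 + PowerSeries.X ^ 2 * (-2 + PowerSeries.X ^ 2) := by
          simp only [U]; ring
        have hW : W 1 = 1 - PowerSeries.X ^ 2 * ((-2 + PowerSeries.X ^ 2) * W 1) := by
          rw [hU] at h; linear_combination h
        interval_cases m
        · have h9 : PowerSeries.coeff 0 (W 1) = 1 := by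
            rw [hW, map_sub, PowerSeries.coeff_X_pow_mul', if_neg (by norm_num)]
            simp
          simp only [ct, fc, zero_add, pow_zero, one_mul]
          rw [h9]
          simp
        · simp only [ct, fc, zero_add, pow_one]
          have : (1 - PowerSeries.X ^ 2) * W 1 = 1 - PowerSeries.X ^ 2 * ((-2 + PowerSeries.X ^ 2) * W 1 + W 1) := by
            linear_combination hW
          rw [this, map_sub, PowerSeries.coeff_X_pow_mul', if_neg (by norm_num)]
          simp [PowerSeries.coeff_one]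
      · obtain ⟨j, rfl⟩ := Nat.exists_eq_add_of_le hge
        have := ct_zero 0 j (by omega)
        rw [show (0 + 1 : ℕ) = 1 from rfl] at this ⊢
        rw [show 2 * 1 + j = 2 + j from rfl] at this
        rw [this, fc_zero 1 (2 + j) (by omega) (by omega)]
        simp
    · rw [show s + 1 + 1 = s + 2 from rfl] at *
      rcases Nat.lt_or_ge m (2 * (s + 2)) with hlt | hge
      · rcases m with _ | _ | _ | m
        · rw [ct_rec0, ← ih (s + 1) (by omega) 0 (by omega), fc_at0, fc_at0]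
        · rw [show (0 + 1 : ℕ) = 1 from rfl, ct_rec1, ← ih (s + 1) (by omega) 0 (by omega),
            ← ih (s + 1) (by omega) 1 (by omega), fc]
          simp
        · rw [show (0 + 1 + 1 : ℕ) = 2 from rfl, ct_rec2, ← ih (s + 1) (by omega) 0 (by omega),
            ← ih (s + 1) (by omega) 1 (by omega), ← ih (s + 1) (by omega) 2 (by omega), fc]
          simp
        · rw [show m + 1 + 1 + 1 = m + 3 from rfl, ct_rec, ← ih (s + 1) (by omega) (m + 3) (by omega),
            ← ih (s + 1) (by omega) (m + 2) (by omega), ← ih (s + 1) (by omega) (m + 1) (by omega),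
            ← ih s (by omega) m (by omega), fc]
          rw [if_pos (by omega), if_pos (by omega), if_pos (by omega)]
          rw [show m + 3 - 1 = m + 2 from rfl, show m + 3 - 2 = m + 1 from rfl, show m + 3 - 3 = m from rfl]
          push_cast
          ring
      · obtain ⟨j, rfl⟩ := Nat.exists_eq_add_of_le hge
        have := ct_zero (s + 1) j (by omega)
        rw [show s + 1 + 1 = s + 2 from rfl] at this
        rw [this, fc_zero (s + 2) _ (by omega) (by omega)]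
        simp

lemma fc_rec (s : ℕ) : Rec s (fc s) := by
  intro k hk
  have h := ct_rec3 s k
  rw [← fc_match s k (by omega), ← fc_match s (k + 1) (by omega), ← fc_match s (k + 2) (by omega)] at h
  exact_mod_cast h

lemma fc_unimodal (s : ℕ) : ∃ p, (∀ i, i < p → fc s i ≤ fc s (i + 1)) ∧
    (∀ i, p ≤ i → fc s (i + 1) ≤ fc s i) := by
  rcases Nat.lt_or_ge s 8 with hlt | hge
  · have key : ∀ s < 8, ∃ p < 16, (∀ i < p, fc s i ≤ fc s (i + 1)) ∧
        (∀ i < 16, p ≤ i → fc s (i + 1) ≤ fc s i) := by decide +kernel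
    obtain ⟨p, _, h1, h2⟩ := key s hlt
    refine ⟨p, h1, fun i hi => ?_⟩
    rcases Nat.lt_or_ge i 16 with hl | hg
    · exact h2 i hl hi
    · rw [fc_zero s i (by omega) (by omega), fc_zero s (i + 1) (by omega) (by omega)]
  · apply unimodal_of_rec s (fc s) hge (fc_rec s) (fc_nonneg s) (fun i hi => fc_zero s i hi (by omega))
      (fc_at0 s)
    obtain ⟨t, rfl⟩ : ∃ t, s = t + 1 := ⟨s - 1, by omega⟩
    rw [fc_at0, fc_at1]
    have : 7 ≤ t := by omega
    exact_mod_cast (by omega : 1 ≤ t)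

theorem result : ∀ s : ℕ, IsUnimodal (F s) := by
  intro s
  obtain ⟨p, h1, h2⟩ := fc_unimodal s
  refine ⟨min p (F s).natDegree, min_le_right _ _, ?_, ?_⟩
  · intro i hi
    rw [coeff_F, coeff_F]
    exact h1 i (lt_of_lt_of_le hi (min_le_left _ _))
  · intro i hi hi2
    rw [coeff_F, coeff_F]
    exact h2 i (by omega)

end Pool.Agent.Results.MP_dbd06c_co.Unimodal
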